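import Pool.Agent.W705.JR.Tup
import Pool.Agent.H297.FT.Knotoid

/-!
# Random words in a box of a knotoid diagram

Diagrams (starting library `Pool.Agent.H891R2.Jones.Diagram`): `Diagram P` (oriented diagrams with marked
points `P`, planar or not; `Diagram.loops`, the number of components of a state, counts circles and
intervals), `Diagram.fPoly` (the normalised bracket `(-A^{-3})^{w(D)} ⟨D⟩`), `Outer m` (the part of an
oriented diagram outside a box through which `m` strands run, with arbitrary directions), `Outer.push`
(draws one crossing in the box) and `Outer.close` (fills the rest of the box with vertical strands).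
`IsKnotoid D` (starting library `Pool.Agent.H832R3.TW.E`): the pieces of `D` form one oriented interval,
running from a marked point `tail` to a different marked point `head`, and (possibly) oriented closed
curves.

`Pool.Agent.W639.RB.Defs`: `Letter m = Bool × Fin (m - 1)` (the letters `σ_i^{±1}` of the braid group on
`m` strands), `diagram O w` (the diagram obtained by drawing the word `w : Fin n → Letter m` in the box of
`O`), `draw O w`.
-/

set_option autoImplicit false

namespace Pool.Agent.Results.MP_79b4ff_gt.RandomBraidKnotoids

open Finset LaurentPolynomial Pool.Agent.H891R2.Jones Pool.Agent.W639.RB Pool.Agent.W705.JR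
  Pool.Agent.H297.FT Pool.Agent.H832R3.TW

theorem kgood_draw {m : ℕ} (v : Fin m → Bool) (w : List (Bool × ℕ)) : ∀ (O : Outer m), 
    KGood O v → KGood (draw O w) v := by
  induction w with
  | nil => intro O h; exact h
  | cons x w ih =>
    intro O h
    exact ih _ (KGood_push O v x.1 x.2 h)

open Classical in
/-- Let `m ≥ 3` and let `O` be the part of a diagram of a knotoid (or multi-knotoid) outside a box through
which `m` strands run; draw words `w` of length `n` in the letters `σ_i^{±1}` in the box.  The diagram is
again a diagram of a knotoid if the directions of the strands fit together (`(draw O w).up = O.up`, for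
instance, if all strands of the box have the same direction).

* For every probability vector `q > 0` on the letters there are `C` and `r < 1`, independent of `O`,
  such that for every Laurent polynomial `f` (for instance `f = 1`) and every `n` the knotoid diagram with
  a random word of length `n` in the box (independent letters with the probabilities `q`) has the
  normalised bracket `f` with probability at most `C r^n`.
* For every `m'` there are `ε > 0`, `C` and `r < 1` such that for all outsides `O` on `m` and `O'` on `m'`
  strands and all `n` at most `C r^n (2m-2)^n` of the `(2m-2)^n` words of length `n` have the normalised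
  bracket of a diagram with a word of length at most `ε n` in the box of `O'`.
* If `M` words of length `n` are chosen independently and drawn in boxes with the outsides
  `O_1, …, O_M`, then the normalised brackets are pairwise different with probability at least
  `1 - M² C r^n`, with `C`, `r < 1` depending on `m` only. -/
theorem result (m : ℕ) (hm : 3 ≤ m) :
    (∀ (O : Outer m), IsKnotoid O.close → ∀ (n : ℕ) (w : Fin n → Letter m), 
      (draw O (toL w)).up = O.up → IsKnotoid (diagram O w)) ∧
    (∀ (O : Outer m), IsKnotoid O.close → (∀ j, O.up j = true) → ∀ (n : ℕ) (w : Fin n → Letter m), 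
      IsKnotoid (diagram O w)) ∧
    (∀ q : Letter m → ℝ, (∀ x, 0 < q x) → ∑ x, q x = 1 → ∃ C r : ℝ, 0 < r ∧ r < 1 ∧ 
      ∀ (O : Outer m) (f : ℤ[T;T⁻¹]) (n : ℕ), 
        ∑ w : Fin n → Letter m, (if (diagram O w).fPoly = f then ∏ j, q (w j) else 0) ≤ C * r ^ n) ∧
    (∀ m' : ℕ, ∃ ε C r : ℝ, 0 < ε ∧ 0 < r ∧ r < 1 ∧ ∀ (O : Outer m) (O' : Outer m') (n : ℕ), 
      ((univ.filter (fun w : Fin n → Letter m => ∃ j : ℕ, (j : ℝ) ≤ ε * n ∧ 
        ∃ w' : Fin j → Letter m', (diagram O' w').fPoly = (diagram O w).fPoly)).card : ℝ) ≤ 
          C * r ^ n * ((2 * (m - 1) : ℕ) : ℝ) ^ n) ∧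
    (∃ C r : ℝ, 0 < r ∧ r < 1 ∧ ∀ (M n : ℕ) (O : Fin M → Outer m), 
      ((univ.filter (fun W : Fin M → Fin n → Letter m => ∃ i j, i ≠ j ∧ 
        (diagram (O i) (W i)).fPoly = (diagram (O j) (W j)).fPoly)).card : ℝ) ≤ 
          (M:ℝ) ^ 2 * (C * r ^ n) * (((2 * (m - 1) : ℕ) : ℝ) ^ n) ^ M) := by
  have hk : ∀ (O : Outer m), IsKnotoid O.close → ∀ (n : ℕ) (w : Fin n → Letter m), 
      (draw O (toL w)).up = O.up → IsKnotoid (diagram O w) := by
    intro O hO n w hup
    unfold diagram
    rw [knotoid_iff, hup]
    rw [knotoid_iff] at hO
    exact kgood_draw O.up (toL w) O hO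
  refine ⟨hk, fun O hO hup n w => hk O hO n w ?_, fun q hq hs => ?_, fun m' => ?_, ?_⟩
  · funext j
    rw [hup, (draw_up (toL w) O (toL_mem w) hup).1]
  · obtain ⟨C, r, h0, h1, h⟩ := weights hm q hq hs
    refine ⟨C, r, h0, h1, fun O f n => ?_⟩
    refine le_trans ?_ (h O (ev 3 le_rfl f) n)
    unfold prob
    refine Finset.sum_le_sum fun w _ => ?_
    by_cases hw : (diagram O w).fPoly = f
    · have h2 : (draw O (toL w)).close.fPoly = f := hw
      rw [if_pos hw, if_pos (by rw [h2])]
    · rw [if_neg hw]
      split_ifs
      · exact Finset.prod_nonneg fun j _ => (hq _).le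
      · exact le_rfl
  · obtain ⟨C, r, hC, h0, h1, h⟩ := count hm
    exact shorter (by linarith) h0 h1 h m'
  · obtain ⟨C, r, hC, h0, h1, h⟩ := count hm
    refine ⟨C, r, h0, h1, fun M n O => ?_⟩
    have h4 : (Fintype.card (Fin n → Letter m) : ℝ) = ((2 * (m - 1) : ℕ) : ℝ) ^ n := by
      rw [Fintype.card_fun, Fintype.card_fin, card_letter]
      push_cast
      rfl
    have h2 := tuples (α := Fin n → Letter m) M 
      (fun i j w w' => (diagram (O i) w).fPoly = (diagram (O j) w').fPoly)
      (C * r ^ n) (by positivity) (by
        intro i j _ y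
        rw [h4]
        exact le_trans (cardle _ _ _ _ id Function.injective_id fun w hw => hw) 
          (h (O i) (diagram (O j) y).fPoly n))
    rw [h4] at h2
    exact le_trans (cardle _ _ _ _ id Function.injective_id fun w hw => hw) h2

end Pool.Agent.Results.MP_79b4ff_gt.RandomBraidKnotoids
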